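import Pool.Agent.Helper20.NS5.Goals
import Pool.Agent.Helper59.Gen3.LSH

/-!
# Packet NS5-LSH (MP_c578c8_lc): the language is in linear space

Adapted from `Pool.Agent.Helper59.Gen3.LSH`.
-/

namespace Pool.Agent.Helper39.NS5

open Pool.Agent.Helper65.LinSpace Pool.Agent.Helper78.Avg Finset
open Pool.Agent.Helper65.Gen3 (pP)
open Pool.Agent.Helper59.Gen3 (ls_hs pP_pos ls_pP ls_pow_log)
open Pool.Agent.Helper20.NS5 (szN odN wN YN MN thrN LSH_stmt)

section bounds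

variable (E : ℕ → ℕ → ℕ → ℕ → ℕ → ℕ) (k : ℕ)

theorem sz_le (n e a z : ℕ) : szN E n e a z ≤ 2 ^ n := by
  unfold Pool.Agent.Helper20.NS5.szN
  refine (sum_le_sum fun i _ => ifz_le_one _).trans ?_
  simp

theorem od_le (n e a s z : ℕ) : odN E k n e a s z ≤ szN E n e a z := by
  unfold Pool.Agent.Helper20.NS5.odN Pool.Agent.Helper20.NS5.szN
  refine sum_le_sum fun i _ => ?_
  unfold Pool.Agent.Helper65.LinSpace.ifz
  split_ifs <;> omega

theorem w_le (n e a z : ℕ) : wN E n e a z ≤ 2 ^ n := by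
  unfold Pool.Agent.Helper20.NS5.wN
  exact Nat.pow_le_pow_right (by norm_num) (Nat.sub_le _ _)

end bounds

section

variable {α : Type} [Ctx α] {E : ℕ → ℕ → ℕ → ℕ → ℕ → ℕ} (k : ℕ)

theorem ls_E (hE : LS (fun z : ℕ × ℕ × ℕ × ℕ × ℕ =>
      E (Nat.log 2 z.1) z.2.1 z.2.2.1 z.2.2.2.1 z.2.2.2.2)) {x e a z z' : α → ℕ} (hx : LS x)
    (he : LS e) (ha : LS a) (hz : LS z) (hz' : LS z') :
    LS (fun t => E (Nat.log 2 (x t)) (e t) (a t) (z t) (z' t)) :=
  LS.comp (g := fun z : ℕ × ℕ × ℕ × ℕ × ℕ =>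
      E (Nat.log 2 z.1) z.2.1 z.2.2.1 z.2.2.2.1 z.2.2.2.2)
    (f := fun t : α => (x t, e t, a t, z t, z' t)) hE (by fun_prop)

theorem ls_szN (hE : LS (fun z : ℕ × ℕ × ℕ × ℕ × ℕ =>
      E (Nat.log 2 z.1) z.2.1 z.2.2.1 z.2.2.2.1 z.2.2.2.2)) {x e a z : α → ℕ} (hx : LS x)
    (he : LS e) (ha : LS a) (hz : LS z) :
    LS (fun t => szN E (Nat.log 2 (x t)) (e t) (a t) (z t)) := by
  unfold Pool.Agent.Helper20.NS5.szN
  refine LS.sum_le (N := fun t => 2 ^ Nat.log 2 (x t)) (B := fun _ => 1)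
    (f := fun t i => ifz (E (Nat.log 2 (x t)) (e t) (a t) (z t) i) 1 0) ?_ (by fun_prop)
      (LS.const 1) fun t i _ => ifz_le_one _
  refine LS.ifz ?_ (LS.const 1) (LS.const 0)
  exact ls_E (α := α × ℕ) (x := fun t => x t.1) (e := fun t => e t.1) (a := fun t => a t.1)
    (z := fun t => z t.1) (z' := fun t => t.2) hE (by fun_prop) (by fun_prop) (by fun_prop)
    (by fun_prop) (by fun_prop)

theorem ls_odN (hE : LS (fun z : ℕ × ℕ × ℕ × ℕ × ℕ =>
      E (Nat.log 2 z.1) z.2.1 z.2.2.1 z.2.2.2.1 z.2.2.2.2)) {x e a s z : α → ℕ} (hx : LS x)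
    (he : LS e) (ha : LS a) (hs : LS s) (hz : LS z) :
    LS (fun t => odN E k (Nat.log 2 (x t)) (e t) (a t) (s t) (z t)) := by
  unfold Pool.Agent.Helper20.NS5.odN
  refine LS.sum_le (N := fun t => 2 ^ Nat.log 2 (x t)) (B := fun _ => 1)
    (f := fun t i => ifz (E (Nat.log 2 (x t)) (e t) (a t) (z t) i)
      (Pool.Agent.Helper65.Gen3.hs (pP (Nat.log 2 (x t))) (2 * k) (s t) i % 2) 0) ?_ (by fun_prop)
      (LS.const 1) fun t i _ => ?_
  · refine LS.ifz ?_ ?_ (LS.const 0)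
    · exact ls_E (α := α × ℕ) (x := fun t => x t.1) (e := fun t => e t.1) (a := fun t => a t.1)
        (z := fun t => z t.1) (z' := fun t => t.2) hE (by fun_prop) (by fun_prop) (by fun_prop)
        (by fun_prop) (by fun_prop)
    · have h3 : LS (fun z : α × ℕ => Pool.Agent.Helper65.Gen3.hs (pP (Nat.log 2 (x z.1))) (2 * k)
          (s z.1) z.2) :=
        ls_hs (p := fun z : α × ℕ => pP (Nat.log 2 (x z.1))) (s := fun z => s z.1)
          (z := fun z => z.2) (2 * k) (ls_pP (by fun_prop)) (by fun_prop) (by fun_prop)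
          fun z => pP_pos _
      exact LS.mod h3 (LS.const 2)
  · unfold Pool.Agent.Helper65.LinSpace.ifz
    split_ifs <;> omega

theorem ls_wN (hE : LS (fun z : ℕ × ℕ × ℕ × ℕ × ℕ =>
      E (Nat.log 2 z.1) z.2.1 z.2.2.1 z.2.2.2.1 z.2.2.2.2)) {x e a z : α → ℕ} (hx : LS x)
    (he : LS e) (ha : LS a) (hz : LS z) :
    LS (fun t => wN E (Nat.log 2 (x t)) (e t) (a t) (z t)) := by
  have h := ls_szN hE hx he ha hz
  unfold Pool.Agent.Helper20.NS5.wN
  refine LS.pow_of_le (f := fun _ => 2) (C := fun t => 2 ^ Nat.log 2 (x t)) (LS.const 2) ?_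
    (by fun_prop) fun t => Nat.pow_le_pow_right (by norm_num) (Nat.sub_le _ _)
  exact LS.sub (by fun_prop) (LS.log2 h)

theorem ls_YN (hE : LS (fun z : ℕ × ℕ × ℕ × ℕ × ℕ =>
      E (Nat.log 2 z.1) z.2.1 z.2.2.1 z.2.2.2.1 z.2.2.2.2)) {x e a s : α → ℕ} (hx : LS x)
    (he : LS e) (ha : LS a) (hs : LS s) :
    LS (fun t => YN E k (Nat.log 2 (x t)) (e t) (a t) (s t)) := by
  unfold Pool.Agent.Helper20.NS5.YN
  refine LS.sum_le (N := fun t => 2 ^ Nat.log 2 (x t))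
    (B := fun t => (2 ^ Nat.log 2 (x t)) ^ (2 * k) * (2 ^ Nat.log 2 (x t)) ^ (k + 1))
    (f := fun t i => ((szN E (Nat.log 2 (x t)) (e t) (a t) i -
        2 * odN E k (Nat.log 2 (x t)) (e t) (a t) (s t) i) +
        (2 * odN E k (Nat.log 2 (x t)) (e t) (a t) (s t) i -
        szN E (Nat.log 2 (x t)) (e t) (a t) i)) ^ (2 * k) *
      wN E (Nat.log 2 (x t)) (e t) (a t) i ^ (k + 1)) ?_ (by fun_prop) ?_ fun t i _ => ?_
  · have h1 := ls_szN (α := α × ℕ) (x := fun t => x t.1) (e := fun t => e t.1)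
      (a := fun t => a t.1) (z := fun t => t.2) hE (by fun_prop) (by fun_prop) (by fun_prop)
      (by fun_prop)
    have h2 := ls_odN (α := α × ℕ) (x := fun t => x t.1) (e := fun t => e t.1)
      (a := fun t => a t.1) (s := fun t => s t.1) (z := fun t => t.2) k hE (by fun_prop)
      (by fun_prop) (by fun_prop) (by fun_prop) (by fun_prop)
    have h3 := ls_wN (α := α × ℕ) (x := fun t => x t.1) (e := fun t => e t.1)
      (a := fun t => a t.1) (z := fun t => t.2) hE (by fun_prop) (by fun_prop) (by fun_prop)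
      (by fun_prop)
    have h4 := LS.mul (LS.const 2) h2
    exact LS.mul (LS.pow_const (LS.add (LS.sub h1 h4) (LS.sub h4 h1)) _) (LS.pow_const h3 _)
  · have h1 : LS (fun t => 2 ^ Nat.log 2 (x t)) := by fun_prop
    exact LS.mul (LS.pow_const h1 _) (LS.pow_const h1 _)
  · refine Nat.mul_le_mul (Nat.pow_le_pow_left ?_ _) (Nat.pow_le_pow_left (w_le _ _ _ _ _) _)
    have h1 := sz_le E (Nat.log 2 (x t)) (e t) (a t) i
    have h2 := od_le E k (Nat.log 2 (x t)) (e t) (a t) (s t) i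
    omega

theorem ls_MN (hE : LS (fun z : ℕ × ℕ × ℕ × ℕ × ℕ =>
      E (Nat.log 2 z.1) z.2.1 z.2.2.1 z.2.2.2.1 z.2.2.2.2)) {x e a : α → ℕ} (hx : LS x)
    (he : LS e) (ha : LS a) :
    LS (fun t => MN E (Nat.log 2 (x t)) (e t) (a t)) := by
  unfold Pool.Agent.Helper20.NS5.MN
  refine LS.sum_le (N := fun t => 2 ^ Nat.log 2 (x t)) (B := fun t => 2 ^ Nat.log 2 (x t))
    (f := fun t i => wN E (Nat.log 2 (x t)) (e t) (a t) i) ?_ (by fun_prop) (by fun_prop)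
    fun t i _ => w_le _ _ _ _ _
  exact ls_wN (α := α × ℕ) (x := fun t => x t.1) (e := fun t => e t.1)
      (a := fun t => a t.1) (z := fun t => t.2) hE (by fun_prop) (by fun_prop) (by fun_prop)
      (by fun_prop)

theorem ls_thrN (hE : LS (fun z : ℕ × ℕ × ℕ × ℕ × ℕ =>
      E (Nat.log 2 z.1) z.2.1 z.2.2.1 z.2.2.2.1 z.2.2.2.2)) {x e a : α → ℕ} (hx : LS x)
    (he : LS e) (ha : LS a) :
    LS (fun z => thrN E k (Nat.log 2 (x z)) (e z) (a z)) := by
  unfold Pool.Agent.Helper20.NS5.thrN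
  refine LS.mul (LS.mul (LS.mul (LS.const _) (ls_MN hE hx he ha)) (by fun_prop)) ?_
  refine LS.pow_of_le (f := fun _ => 2) (C := fun z => (x z + 2) ^ (2 * (2 * k + 4)))
    (LS.const 2) (by fun_prop) (LS.pow_const (by fun_prop) _) fun z => ?_
  refine le_trans ?_ (Pool.Agent.Helper78.Avg.two_pow_log_le (x z) (2 * k + 4))
  refine Nat.pow_le_pow_right (by norm_num) ?_
  have h1 := min_le_right (Nat.log 2 (a z)) (k * Nat.log 2 (x z))
  have h2 := min_le_right (e z) (Nat.log 2 (x z))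
  have h3 : (2 * k + 4) * (Nat.log 2 (x z) + 1) =
      k * Nat.log 2 (x z) + k * Nat.log 2 (x z) + 4 * Nat.log 2 (x z) + 2 * k + 4 := by ring
  have h4 : k * (Nat.log 2 (x z) + 1) = k * Nat.log 2 (x z) + k := by ring
  omega

theorem ls_vio (hE : LS (fun z : ℕ × ℕ × ℕ × ℕ × ℕ =>
      E (Nat.log 2 z.1) z.2.1 z.2.2.1 z.2.2.2.1 z.2.2.2.2)) {x e a s : α → ℕ} (hx : LS x)
    (he : LS e) (ha : LS a) (hs : LS s) :
    LS (fun z => Pool.Agent.Helper20.NS5.vio E k (Nat.log 2 (x z)) (e z) (a z) (s z)) := by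
  unfold Pool.Agent.Helper20.NS5.vio
  exact LS.lt01 (ls_thrN k hE hx he ha) (ls_YN k hE hx he ha hs)

theorem ls_badN (hE : LS (fun z : ℕ × ℕ × ℕ × ℕ × ℕ =>
      E (Nat.log 2 z.1) z.2.1 z.2.2.1 z.2.2.2.1 z.2.2.2.2)) {x s : α → ℕ} (hx : LS x)
    (hs : LS s) : LS (fun z => Pool.Agent.Helper20.NS5.badN E k (Nat.log 2 (x z)) (s z)) := by
  unfold Pool.Agent.Helper20.NS5.badN
  refine LS.sum_le (N := fun z => Nat.log 2 (x z) + 1) (B := fun z => 2 ^ (k * Nat.log 2 (x z) + 1))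
    (f := fun z e => ∑ a ∈ range (2 ^ (k * Nat.log 2 (x z) + 1)),
      Pool.Agent.Helper20.NS5.vio E k (Nat.log 2 (x z)) e a (s z))
    ?_ (by fun_prop) (ls_pow_log k hx) fun z i _ => ?_
  · refine LS.sum_le (N := fun z : α × ℕ => 2 ^ (k * Nat.log 2 (x z.1) + 1)) (B := fun _ => 1)
      (f := fun z a => Pool.Agent.Helper20.NS5.vio E k (Nat.log 2 (x z.1)) z.2 a (s z.1)) ?_
      (ls_pow_log k (x := fun z : α × ℕ => x z.1) (by fun_prop)) (LS.const 1)
      fun z i _ => lt01_le_one _ _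
    exact ls_vio (α := (α × ℕ) × ℕ) (x := fun z => x z.1.1) (e := fun z => z.1.2)
      (a := fun z => z.2) (s := fun z => s z.1.1) k hE (by fun_prop) (by fun_prop) (by fun_prop)
      (by fun_prop)
  · refine (sum_le_sum fun a _ => lt01_le_one _ _).trans ?_
    simp

theorem ls_hid (hE : LS (fun z : ℕ × ℕ × ℕ × ℕ × ℕ =>
      E (Nat.log 2 z.1) z.2.1 z.2.2.1 z.2.2.2.1 z.2.2.2.2)) {x : α → ℕ} (hx : LS x) :
    LS (fun z => Pool.Agent.Helper20.NS5.hid E k (Nat.log 2 (x z))) := by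
  unfold Pool.Agent.Helper20.NS5.hid
  refine LS.sum_le (N := fun z => pP (Nat.log 2 (x z)) ^ (2 * k)) (B := fun _ => 1)
    (f := fun z i => ifz (∑ j ∈ range (i + 1),
      ifz (Pool.Agent.Helper20.NS5.badN E k (Nat.log 2 (x z)) j) 1 0) 1 0) ?_
    (LS.pow_const (ls_pP hx) _) (LS.const 1) fun z i _ => ifz_le_one _
  refine LS.ifz ?_ (LS.const 1) (LS.const 0)
  refine LS.sum_le (N := fun z : α × ℕ => z.2 + 1) (B := fun _ => 1)
    (f := fun z j => ifz (Pool.Agent.Helper20.NS5.badN E k (Nat.log 2 (x z.1)) j) 1 0) ?_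
    (by fun_prop) (LS.const 1) fun z i _ => ifz_le_one _
  exact LS.ifz (ls_badN (α := (α × ℕ) × ℕ) (x := fun z => x z.1.1) (s := fun z => z.2) k hE
    (by fun_prop) (by fun_prop)) (LS.const 1) (LS.const 0)

end

theorem lsh : LSH_stmt := by
  intro E k hE
  refine LS.dlinspace (F := fun x => Pool.Agent.Helper65.Gen3.hs (pP (Nat.log 2 x)) (2 * k)
    (Pool.Agent.Helper20.NS5.hid E k (Nat.log 2 x)) (x - 2 ^ Nat.log 2 x) % 2) ?_ _ ?_
  · have h := ls_hid k hE (x := fun x : ℕ => x) LS.id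
    exact LS.mod (ls_hs (α := ℕ) (p := fun x => pP (Nat.log 2 x)) (2 * k) (ls_pP LS.id) h
      (by fun_prop) fun x => pP_pos _) (LS.const 2)
  · intro w
    show Pool.Agent.Helper65.Gen3.hs (pP w.length) (2 * k)
      (Pool.Agent.Helper20.NS5.hid E k w.length) (num w - 2 ^ w.length) % 2 = 1 ↔ _
    rw [Pool.Agent.Helper78.Avg.log_num]
    omega

end Pool.Agent.Helper39.NS5
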